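import Mathlib

set_option autoImplicit false
set_option linter.unusedSectionVars false
set_option linter.unusedVariables false

open Finset

namespace Pool.Agent.H4.BI

variable {V : Type*} [Fintype V] [DecidableEq V]

open Classical in
/-- Ordered pairs `(v, w)` with `v` in `S`, `w` outside `S` and `v` adjacent to `w`. -/
noncomputable def bd (H : SimpleGraph V) (S : Finset V) : Finset (V × V) :=
  univ.filter (fun q => q.1 ∈ S ∧ q.2 ∉ S ∧ H.Adj q.1 q.2)

open Classical in
/-- Ordered pairs `(v, w)` with `v` in `S`, `w` in `T` and `v` adjacent to `w`. -/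
noncomputable def ee (H : SimpleGraph V) (S T : Finset V) : Finset (V × V) :=
  univ.filter (fun q => q.1 ∈ S ∧ q.2 ∈ T ∧ H.Adj q.1 q.2)

lemma mem_bd {H : SimpleGraph V} {S : Finset V} {q : V × V} :
    q ∈ bd H S ↔ q.1 ∈ S ∧ q.2 ∉ S ∧ H.Adj q.1 q.2 := by
  simp [bd]

lemma mem_ee {H : SimpleGraph V} {S T : Finset V} {q : V × V} :
    q ∈ ee H S T ↔ q.1 ∈ S ∧ q.2 ∈ T ∧ H.Adj q.1 q.2 := by
  simp [ee]

lemma card_ee_comm (H : SimpleGraph V) (S T : Finset V) :
    (ee H S T).card = (ee H T S).card := by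
  apply Finset.card_bij (fun q _ => (q.2, q.1))
  · intro q hq
    rw [mem_ee] at hq ⊢
    exact ⟨hq.2.1, hq.1, hq.2.2.symm⟩
  · intro a _ b _ hab
    simp only [Prod.mk.injEq] at hab
    exact Prod.ext hab.2 hab.1
  · intro b hb
    rw [mem_ee] at hb
    refine ⟨(b.2, b.1), ?_, rfl⟩
    rw [mem_ee]
    exact ⟨hb.2.1, hb.1, hb.2.2.symm⟩

/-- The boundary of a disjoint union. -/
lemma card_bd_union (H : SimpleGraph V) {S T : Finset V} (h : Disjoint S T) :
    (bd H (S ∪ T)).card + 2 * (ee H S T).card = (bd H S).card + (bd H T).card := by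
  have hd : ∀ v, v ∈ S → v ∉ T := fun v hv => Finset.disjoint_left.mp h hv
  have h1 : bd H S = ee H S T ∪ ee H S (S ∪ T)ᶜ := by
    ext q
    simp only [mem_bd, mem_union, mem_ee, mem_compl]
    have := hd q.2
    tauto
  have h2 : bd H T = ee H T S ∪ ee H T (S ∪ T)ᶜ := by
    ext q
    simp only [mem_bd, mem_union, mem_ee, mem_compl]
    have := hd q.2
    tauto
  have h3 : bd H (S ∪ T) = ee H S (S ∪ T)ᶜ ∪ ee H T (S ∪ T)ᶜ := by
    ext q
    simp only [mem_bd, mem_union, mem_ee, mem_compl]
    tauto
  have c1 : (bd H S).card = (ee H S T).card + (ee H S (S ∪ T)ᶜ).card := by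
    rw [h1, Finset.card_union_of_disjoint]
    rw [Finset.disjoint_left]
    intro q hq hq'
    simp only [mem_ee, mem_compl, mem_union] at hq hq'
    tauto
  have c2 : (bd H T).card = (ee H T S).card + (ee H T (S ∪ T)ᶜ).card := by
    rw [h2, Finset.card_union_of_disjoint]
    rw [Finset.disjoint_left]
    intro q hq hq'
    simp only [mem_ee, mem_compl, mem_union] at hq hq'
    tauto
  have c3 : (bd H (S ∪ T)).card = (ee H S (S ∪ T)ᶜ).card + (ee H T (S ∪ T)ᶜ).card := by
    rw [h3, Finset.card_union_of_disjoint]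
    rw [Finset.disjoint_left]
    intro q hq hq'
    simp only [mem_ee, mem_compl, mem_union] at hq hq'
    have := hd q.1
    tauto
  have c4 := card_ee_comm H S T
  omega

/-- The graph `H` without the edges touching `P`. -/
def del (H : SimpleGraph V) (P : Finset V) : SimpleGraph V where
  Adj v w := H.Adj v w ∧ v ∉ P ∧ w ∉ P
  symm := ⟨fun v w h => ⟨h.1.symm, h.2.2, h.2.1⟩⟩
  loopless := ⟨fun v h => H.loopless.irrefl v h.1⟩

lemma del_adj {H : SimpleGraph V} {P : Finset V} {v w : V} :
    (del H P).Adj v w ↔ H.Adj v w ∧ v ∉ P ∧ w ∉ P := Iff.rfl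

lemma card_bd_del (H : SimpleGraph V) {P W : Finset V} (h : Disjoint W P) :
    (bd (del H P) W).card + (ee H W P).card = (bd H W).card := by
  have hd : ∀ v, v ∈ W → v ∉ P := fun v hv => Finset.disjoint_left.mp h hv
  have h1 : bd H W = bd (del H P) W ∪ ee H W P := by
    ext q
    simp only [mem_bd, mem_union, mem_ee, del_adj]
    have h1 := hd q.1
    have h2 := hd q.2
    tauto
  rw [h1, Finset.card_union_of_disjoint]
  rw [Finset.disjoint_left]
  intro q hq hq'
  simp only [mem_ee, mem_bd, del_adj] at hq hq'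
  tauto

/-- The graph `H` without the edge `s t`. -/
def dele (H : SimpleGraph V) (s t : V) : SimpleGraph V where
  Adj v w := H.Adj v w ∧ ¬ (v = s ∧ w = t) ∧ ¬ (v = t ∧ w = s)
  symm := ⟨fun v w h => ⟨h.1.symm, fun h' => h.2.2 ⟨h'.2, h'.1⟩, fun h' => h.2.1 ⟨h'.2, h'.1⟩⟩⟩
  loopless := ⟨fun v h => H.loopless.irrefl v h.1⟩

lemma dele_adj {H : SimpleGraph V} {s t v w : V} :
    (dele H s t).Adj v w ↔ H.Adj v w ∧ ¬ (v = s ∧ w = t) ∧ ¬ (v = t ∧ w = s) := Iff.rfl

lemma card_bd_dele_eq (H : SimpleGraph V) {s t : V} {W : Finset V} (h : s ∈ W ↔ t ∈ W) :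
    (bd (dele H s t) W).card = (bd H W).card := by
  congr 1
  ext q
  simp only [mem_bd, dele_adj]
  constructor
  · rintro ⟨h1, h2, h3, _⟩
    exact ⟨h1, h2, h3⟩
  · rintro ⟨h1, h2, h3⟩
    refine ⟨h1, h2, h3, ?_, ?_⟩
    · rintro ⟨rfl, rfl⟩
      exact h2 (h.mp h1)
    · rintro ⟨rfl, rfl⟩
      exact h2 (h.mpr h1)

lemma card_bd_dele (H : SimpleGraph V) {s t : V} {W : Finset V} (hs : s ∈ W) (ht : t ∉ W)
    (ha : H.Adj s t) : (bd (dele H s t) W).card + 1 = (bd H W).card := by
  have h1 : bd H W = insert (s, t) (bd (dele H s t) W) := by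
    ext q
    simp only [mem_bd, dele_adj, mem_insert]
    constructor
    · rintro ⟨h1, h2, h3⟩
      by_cases hq : q = (s, t)
      · exact Or.inl hq
      · refine Or.inr ⟨h1, h2, h3, ?_, ?_⟩
        · rintro ⟨h4, h5⟩
          exact hq (Prod.ext h4 h5)
        · rintro ⟨h4, h5⟩
          rw [h4] at h1
          exact ht h1
    · rintro (rfl | ⟨h1, h2, h3, _⟩)
      · exact ⟨hs, ht, ha⟩
      · exact ⟨h1, h2, h3⟩
  rw [h1, Finset.card_insert_of_notMem]
  intro h
  rw [mem_bd] at h
  exact h.2.2.2.1 ⟨rfl, rfl⟩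

/-- The value seen at `v` along the edge `v w`. -/
def kap (c : V → Bool) (p : V → V) (v w : V) : Bool := if p v = w then c v else !c v

/-- A solution on `A`: every vertex of `A` picks one neighbour; an edge inside `A` has different
values at its two ends and is picked by at most one end. -/
structure Sol (H : SimpleGraph V) (A : Finset V) (c : V → Bool) (p : V → V) : Prop where
  adj : ∀ v ∈ A, H.Adj v (p v)
  edge : ∀ v ∈ A, ∀ w ∈ A, H.Adj v w → kap c p v w ≠ kap c p w v ∧ ¬ (p v = w ∧ p w = v)

/-- Degrees at most three and no nonempty subset of `A` has fewer than two boundary edges. -/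
structure Cfg (H : SimpleGraph V) (A : Finset V) : Prop where
  deg : ∀ v ∈ A, (bd H {v}).card ≤ 3
  two : ∀ S ⊆ A, S.Nonempty → 2 ≤ (bd H S).card

lemma kap_pick {c : V → Bool} {p : V → V} {v w : V} (h : p v = w) : kap c p v w = c v := by
  simp [kap, h]

lemma kap_unp {c : V → Bool} {p : V → V} {v w : V} (h : p v ≠ w) : kap c p v w = !c v := by
  simp [kap, h]

lemma kap_compl (c : V → Bool) (p : V → V) (v w : V) :
    kap (fun z => !c z) p v w = !kap c p v w := by
  unfold kap
  split_ifs <;> simp

lemma Sol.compl {H : SimpleGraph V} {A : Finset V} {c : V → Bool} {p : V → V}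
    (h : Sol H A c p) : Sol H A (fun z => !c z) p := by
  refine ⟨h.adj, fun v hv w hw hvw => ?_⟩
  obtain ⟨h1, h2⟩ := h.edge v hv w hw hvw
  refine ⟨?_, h2⟩
  rw [kap_compl, kap_compl]
  intro h3
  exact h1 (by simpa using h3)

/-- Complementing a solution so that a given value is as wished. -/
lemma Sol.adjust {H : SimpleGraph V} {A : Finset V} {c : V → Bool} {p : V → V}
    (h : Sol H A c p) (v w : V) (b : Bool) :
    ∃ c' : V → Bool, Sol H A c' p ∧ kap c' p v w = b := by
  by_cases hb : kap c p v w = b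
  · exact ⟨c, h, hb⟩
  · refine ⟨_, h.compl, ?_⟩
    rw [kap_compl]
    cases b <;> simp_all

lemma nbr_two {H : SimpleGraph V} {y e1 e2 : V} (hd : (bd H {y}).card = 2) (h1 : H.Adj y e1)
    (h2 : H.Adj y e2) (hne : e1 ≠ e2) (w : V) (hw : H.Adj y w) : w = e1 ∨ w = e2 := by
  have hsub : ({(y, e1), (y, e2)} : Finset (V × V)) ⊆ bd H {y} := by
    intro q hq
    simp only [mem_insert, mem_singleton] at hq
    rw [mem_bd]
    rcases hq with rfl | rfl
    · exact ⟨by simp, by simpa using h1.ne', h1⟩
    · exact ⟨by simp, by simpa using h2.ne', h2⟩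
  have hc : ({(y, e1), (y, e2)} : Finset (V × V)).card = 2 := by
    rw [Finset.card_insert_of_notMem, Finset.card_singleton]
    simp [hne]
  have heq := Finset.eq_of_subset_of_card_le hsub (by rw [hd, hc])
  have hm : (y, w) ∈ bd H {y} := by
    rw [mem_bd]
    exact ⟨by simp, by simpa using hw.ne', hw⟩
  rw [← heq] at hm
  simp only [mem_insert, mem_singleton, Prod.mk.injEq, true_and] at hm
  exact hm

/-- A vertex of degree two at an unpicked edge can take any colour, no value changes. -/
lemma Sol.flip {H : SimpleGraph V} {A : Finset V} {c : V → Bool} {p : V → V}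
    (h : Sol H A c p) {y e1 : V} (hy : y ∈ A) (hd : (bd H {y}).card = 2) (h1 : H.Adj y e1)
    (hp : p y ≠ e1) (hq : e1 ∈ A → p e1 ≠ y) (b : Bool) :
    ∃ (c' : V → Bool) (p' : V → V), Sol H A c' p' ∧ c' y = b ∧
      (∀ v w, H.Adj v w → kap c' p' v w = kap c p v w) ∧
      (∀ v, v ≠ y → c' v = c v ∧ p' v = p v) := by
  by_cases hb : c y = b
  · exact ⟨c, p, h, hb, fun _ _ _ => rfl, fun _ _ => ⟨rfl, rfl⟩⟩
  · have hk : ∀ v w, H.Adj v w → kap (Function.update c y b) (Function.update p y e1) v w
        = kap c p v w := by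
      intro v w hvw
      by_cases hv : v = y
      · subst hv
        rcases nbr_two hd h1 (h.adj v hy) hp.symm w hvw with rfl | rfl
        · rw [kap_pick (by simp), kap_unp hp]
          simp only [Function.update_self]
          cases b <;> simp_all
        · rw [kap_pick rfl, kap_unp (by simpa using hp.symm)]
          simp only [Function.update_self]
          cases b <;> simp_all
      · unfold kap
        rw [Function.update_of_ne hv, Function.update_of_ne hv]
    refine ⟨Function.update c y b, Function.update p y e1, ⟨?_, ?_⟩, by simp, hk, ?_⟩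
    · intro v hv
      by_cases hvy : v = y
      · subst hvy
        simpa using h1
      · rw [Function.update_of_ne hvy]
        exact h.adj v hv
    · intro v hv w hw hvw
      rw [hk v w hvw, hk w v hvw.symm]
      refine ⟨(h.edge v hv w hw hvw).1, ?_⟩
      rintro ⟨h3, h4⟩
      by_cases hvy : v = y
      · subst hvy
        rw [Function.update_self] at h3
        subst h3
        rw [Function.update_of_ne hvw.ne'] at h4
        exact hq hw h4
      · rw [Function.update_of_ne hvy] at h3
        by_cases hwy : w = y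
        · subst hwy
          rw [Function.update_self] at h4
          subst h4
          exact hq hv h3
        · rw [Function.update_of_ne hwy] at h4
          exact (h.edge v hv w hw hvw).2 ⟨h3, h4⟩
    · intro v hv
      exact ⟨by rw [Function.update_of_ne hv], by rw [Function.update_of_ne hv]⟩

/-- Glueing two solutions with disjoint supports. -/
lemma glue {H H1 H2 : SimpleGraph V} {A1 A2 : Finset V} {c1 c2 : V → Bool} {p1 p2 : V → V}
    (hdis : Disjoint A1 A2) (s1 : Sol H1 A1 c1 p1) (s2 : Sol H2 A2 c2 p2)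
    (a1 : ∀ v ∈ A1, ∀ w, H1.Adj v w → H.Adj v w) (a2 : ∀ v ∈ A2, ∀ w, H2.Adj v w → H.Adj v w)
    (i1 : ∀ v ∈ A1, ∀ w ∈ A1, H.Adj v w → H1.Adj v w)
    (i2 : ∀ v ∈ A2, ∀ w ∈ A2, H.Adj v w → H2.Adj v w)
    (x : ∀ v ∈ A1, ∀ w ∈ A2, H.Adj v w →
      kap c1 p1 v w ≠ kap c2 p2 w v ∧ ¬ (p1 v = w ∧ p2 w = v)) :
    ∃ (c : V → Bool) (p : V → V), Sol H (A1 ∪ A2) c p ∧
      (∀ v ∈ A1, c v = c1 v ∧ p v = p1 v) ∧ (∀ v ∈ A2, c v = c2 v ∧ p v = p2 v) := by
  have hn : ∀ v ∈ A2, v ∉ A1 := fun v hv hv' => (Finset.disjoint_left.mp hdis) hv' hv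
  set c : V → Bool := fun v => if v ∈ A1 then c1 v else c2 v with hc
  set p : V → V := fun v => if v ∈ A1 then p1 v else p2 v with hp
  have e1 : ∀ v ∈ A1, c v = c1 v ∧ p v = p1 v := by
    intro v hv
    simp [hc, hp, hv]
  have e2 : ∀ v ∈ A2, c v = c2 v ∧ p v = p2 v := by
    intro v hv
    simp [hc, hp, hn v hv]
  have k1 : ∀ v ∈ A1, ∀ w, kap c p v w = kap c1 p1 v w := by
    intro v hv w
    unfold kap
    rw [(e1 v hv).1, (e1 v hv).2]
  have k2 : ∀ v ∈ A2, ∀ w, kap c p v w = kap c2 p2 v w := by
    intro v hv w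
    unfold kap
    rw [(e2 v hv).1, (e2 v hv).2]
  refine ⟨c, p, ⟨?_, ?_⟩, e1, e2⟩
  · intro v hv
    rw [mem_union] at hv
    rcases hv with hv | hv
    · rw [(e1 v hv).2]
      exact a1 v hv _ (s1.adj v hv)
    · rw [(e2 v hv).2]
      exact a2 v hv _ (s2.adj v hv)
  · intro v hv w hw hvw
    rw [mem_union] at hv hw
    rcases hv with hv | hv <;> rcases hw with hw | hw
    · rw [k1 v hv, k1 w hw, (e1 v hv).2, (e1 w hw).2]
      exact s1.edge v hv w hw (i1 v hv w hw hvw)
    · rw [k1 v hv, k2 w hw, (e1 v hv).2, (e2 w hw).2]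
      exact x v hv w hw hvw
    · rw [k2 v hv, k1 w hw, (e2 v hv).2, (e1 w hw).2]
      have := x w hw v hv hvw.symm
      exact ⟨this.1.symm, fun h => this.2 ⟨h.2, h.1⟩⟩
    · rw [k2 v hv, k2 w hw, (e2 v hv).2, (e2 w hw).2]
      exact s2.edge v hv w hw (i2 v hv w hw hvw)

/-! ### Small facts -/

lemma exists_nbr {H : SimpleGraph V} {y : V} (hd : 0 < (bd H {y}).card) : ∃ e1, H.Adj y e1 := by
  obtain ⟨q, hq⟩ := Finset.card_pos.mp hd
  rw [mem_bd, mem_singleton] at hq
  exact ⟨q.2, by rw [← hq.1]; exact hq.2.2⟩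

lemma card_ee_le_left (H : SimpleGraph V) {S T : Finset V} (h : Disjoint S T) :
    (ee H S T).card ≤ (bd H S).card := by
  apply Finset.card_le_card
  intro q hq
  rw [mem_ee] at hq
  rw [mem_bd]
  exact ⟨hq.1, fun h' => (Finset.disjoint_left.mp h) h' hq.2.1, hq.2.2⟩

lemma card_ee_le_right (H : SimpleGraph V) {S T : Finset V} (h : Disjoint S T) :
    (ee H S T).card ≤ (bd H T).card := by
  rw [card_ee_comm]
  exact card_ee_le_left H h.symm

/-- If an edge leaves `S` outside `T`, then strictly fewer edges go to `T`. -/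
lemma card_ee_lt (H : SimpleGraph V) {S T : Finset V} (h : Disjoint S T) {v w : V} (hv : v ∈ S)
    (hw : w ∉ S) (hw' : w ∉ T) (hvw : H.Adj v w) : (ee H S T).card < (bd H S).card := by
  apply Finset.card_lt_card
  rw [Finset.ssubset_iff_of_subset]
  · refine ⟨(v, w), ?_, ?_⟩
    · rw [mem_bd]
      exact ⟨hv, hw, hvw⟩
    · rw [mem_ee]
      exact fun h' => hw' h'.2.1
  · intro q hq
    rw [mem_ee] at hq
    rw [mem_bd]
    exact ⟨hq.1, fun h' => (Finset.disjoint_left.mp h) h' hq.2.1, hq.2.2⟩

lemma Cfg.mono {H : SimpleGraph V} {A B : Finset V} (h : Cfg H A) (hB : B ⊆ A) : Cfg H B :=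
  ⟨fun v hv => h.deg v (hB hv), fun S hS hn => h.two S (hS.trans hB) hn⟩

/-- The measure of the induction. -/
noncomputable def mu (H : SimpleGraph V) (A : Finset V) : ℕ := (ee H A univ).card

lemma mu_lt {H H' : SimpleGraph V} {A A' : Finset V} (h1 : A' ⊆ A)
    (h2 : ∀ v w, H'.Adj v w → H.Adj v w) {v w : V} (hv : v ∈ A) (hvw : H.Adj v w)
    (hn : v ∉ A' ∨ ¬ H'.Adj v w) : mu H' A' < mu H A := by
  apply Finset.card_lt_card
  rw [Finset.ssubset_iff_of_subset]
  · refine ⟨(v, w), ?_, ?_⟩
    · rw [mem_ee]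
      exact ⟨hv, mem_univ _, hvw⟩
    · rw [mem_ee]
      rintro ⟨h3, _, h4⟩
      rcases hn with hn | hn
      · exact hn h3
      · exact hn h4
  · intro q hq
    rw [mem_ee] at hq ⊢
    exact ⟨h1 hq.1, mem_univ _, h2 _ _ hq.2.2⟩

/-- Removing a piece with two boundary edges keeps the configuration, provided no set next to the
piece has two boundary edges. -/
lemma cfg_del {H : SimpleGraph V} {A P : Finset V} (h : Cfg H A) (hP : P ⊆ A) (hPn : P.Nonempty)
    (hP2 : (bd H P).card = 2)
    (hmax : ∀ W ⊆ A \ P, W.Nonempty → (ee H W P).card = 1 → (bd H W).card = 2 → False) :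
    Cfg (del H P) (A \ P) := by
  refine ⟨?_, ?_⟩
  · intro v hv
    rw [mem_sdiff] at hv
    have h1 := card_bd_del H (P := P) (W := {v}) (by simpa using hv.2)
    have h2 := h.deg v hv.1
    omega
  · intro W hW hWn
    have hd : Disjoint W P := by
      rw [Finset.disjoint_left]
      intro v hv
      exact (mem_sdiff.mp (hW hv)).2
    have h1 := card_bd_del H hd
    have h2 := card_bd_union H hd
    have h3 := h.two W (hW.trans sdiff_subset) hWn
    have h4 := h.two (W ∪ P) (union_subset (hW.trans sdiff_subset) hP) (hWn.mono subset_union_left)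
    have h5 := card_ee_le_right H hd
    by_contra hcon
    have h6 : (ee H W P).card = 1 ∧ (bd H W).card = 2 := by omega
    exact hmax W hW hWn h6.1 h6.2

/-- The statement STAR for one configuration. -/
def Star (H : SimpleGraph V) (A : Finset V) : Prop :=
  Cfg H A → (bd H A).card = 2 → ∀ s ∈ A, ∀ t, H.Adj s t →
    ∃ (c : V → Bool) (p : V → V), Sol H A c p ∧ p s ≠ t ∧ (t ∈ A → p t ≠ s)

/-- The statement THREE for one configuration. -/
def Three (H : SimpleGraph V) (B : Finset V) : Prop :=
  Cfg H B → (bd H B).card = 3 → ∀ t ∈ B, ∀ o, o ∉ B → H.Adj t o →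
    ∃ K : V → V → Bool, ∀ b : Bool, ∃ (c : V → Bool) (p : V → V), Sol H B c p ∧ p t ≠ o ∧
      kap c p t o = b ∧
      ∀ v ∈ B, ∀ w, w ∉ B → H.Adj v w → (v, w) ≠ (t, o) → kap c p v w = K v w

lemma three_of {H : SimpleGraph V} {B : Finset V}
    (ih : ∀ (H' : SimpleGraph V) (A' : Finset V), mu H' A' < mu H B → Star H' A') :
    Three H B := by
  intro cfg h3 t ht o ho hto
  by_cases hex : ∃ P ⊆ B, (bd H P).card = 2 ∧ t ∈ P
  · -- a maximal piece
    classical
    set fam := B.powerset.filter (fun P => (bd H P).card = 2 ∧ t ∈ P) with hfam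
    have hfn : fam.Nonempty := by
      obtain ⟨P, hP, hP2⟩ := hex
      exact ⟨P, by rw [hfam, mem_filter, mem_powerset]; exact ⟨hP, hP2⟩⟩
    obtain ⟨P, hPf, hPm⟩ := Finset.exists_max_image fam Finset.card hfn
    rw [hfam, mem_filter, mem_powerset] at hPf
    obtain ⟨hPB, hP2, htP⟩ := hPf
    have hPn : P.Nonempty := ⟨t, htP⟩
    have hdis : Disjoint (B \ P) P := sdiff_disjoint
    have hun : (B \ P) ∪ P = B := sdiff_union_of_subset hPB
    have c1 := card_bd_union H hdis
    rw [hun] at c1
    have hBn : (B \ P).Nonempty := by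
      rw [Finset.nonempty_iff_ne_empty]
      intro h0
      rw [Finset.sdiff_eq_empty_iff_subset] at h0
      have : P = B := Finset.Subset.antisymm hPB h0
      rw [this] at hP2
      omega
    have c2 := cfg.two (B \ P) sdiff_subset hBn
    have c3 : (ee H P (B \ P)).card < (bd H P).card :=
      card_ee_lt H hdis.symm htP (fun h => ho (hPB h)) (fun h => ho (mem_sdiff.mp h).1) hto
    have c4 := card_ee_comm H (B \ P) P
    have he : (ee H (B \ P) P).card = 1 := by omega
    obtain ⟨⟨y, w'⟩, hyw⟩ := Finset.card_eq_one.mp he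
    have hyw0 : (y, w') ∈ ee H (B \ P) P := by rw [hyw]; simp
    have huniq : ∀ v ∈ P, ∀ w ∈ B \ P, H.Adj v w → v = w' ∧ w = y := by
      intro v hv w hw hvw
      have : (w, v) ∈ ee H (B \ P) P := by
        rw [mem_ee]
        exact ⟨hw, hv, hvw.symm⟩
      rw [hyw, mem_singleton, Prod.mk.injEq] at this
      exact ⟨this.2, this.1⟩
    rw [mem_ee] at hyw0
    obtain ⟨hyB, hw'P, hyw'⟩ := hyw0
    simp only at hyB hw'P hyw'
    have cfg' : Cfg (del H P) (B \ P) := by
      refine cfg_del cfg hPB hPn hP2 ?_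
      intro W hW hWn hW1 hW2
      have hd : Disjoint W P := by
        rw [Finset.disjoint_left]
        intro v hv
        exact (mem_sdiff.mp (hW hv)).2
      have d1 := card_bd_union H hd
      have d2 : (bd H (W ∪ P)).card = 2 := by omega
      have d3 : W ∪ P ∈ fam := by
        rw [hfam, mem_filter, mem_powerset]
        exact ⟨union_subset (hW.trans sdiff_subset) hPB, d2, mem_union_right _ htP⟩
      have d4 := hPm _ d3
      rw [Finset.card_union_of_disjoint hd] at d4
      have := hWn.card_pos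
      omega
    have e1 := card_bd_del H hdis
    have hb2 : (bd (del H P) (B \ P)).card = 2 := by omega
    have hyP : y ∉ P := (mem_sdiff.mp hyB).2
    have e2 := card_bd_del H (P := P) (W := {y}) (by simpa using hyP)
    have e3 : 0 < (ee H {y} P).card :=
      Finset.card_pos.mpr ⟨(y, w'), by rw [mem_ee]; exact ⟨by simp, hw'P, hyw'⟩⟩
    have e4 := cfg.deg y (mem_sdiff.mp hyB).1
    have e5 := cfg'.two {y} (by simpa using hyB) (by simp)
    have hdy : (bd (del H P) {y}).card = 2 := by omega
    obtain ⟨f1, hf1⟩ := exists_nbr (H := del H P) (y := y) (by omega)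
    have hmu2 : mu (del H P) (B \ P) < mu H B :=
      mu_lt sdiff_subset (fun v w h => h.1) (hPB hw'P) hyw'.symm
        (Or.inl (fun h => (mem_sdiff.mp h).2 hw'P))
    have hmu1 : mu H P < mu H B :=
      mu_lt hPB (fun v w h => h) (mem_sdiff.mp hyB).1 hyw' (Or.inl hyP)
    obtain ⟨c2, p2, s2, hp2, hq2⟩ := ih _ _ hmu2 cfg' hb2 y hyB f1 hf1
    obtain ⟨c1, p1, s1, hp1, -⟩ := ih _ _ hmu1 (cfg.mono hPB) hP2 t htP o hto
    refine ⟨kap c2 p2, fun b => ?_⟩
    obtain ⟨c1', s1', hk1⟩ := s1.adjust t o b
    obtain ⟨c2', p2', s2', hc2y, hk2, -⟩ := s2.flip hyB hdy hf1 hp2 hq2 (kap c1' p1 w' y)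
    have hpy : p2' y ≠ w' := by
      intro h
      have := s2'.adj y hyB
      rw [h, del_adj] at this
      exact this.2.2 hw'P
    obtain ⟨c, p, sol, g1, g2⟩ := glue (H := H) hdis.symm s1' s2' (fun v _ w h => h)
      (fun v _ w h => h.1) (fun v _ w _ h => h)
      (fun v hv w hw h => ⟨h, (mem_sdiff.mp hv).2, (mem_sdiff.mp hw).2⟩)
      (by
        intro v hv w hw hvw
        obtain ⟨rfl, rfl⟩ := huniq v hv w hw hvw
        refine ⟨?_, fun h => hpy h.2⟩
        rw [kap_unp hpy, hc2y]
        intro h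
        cases hh : kap c1' p1 v w <;> rw [hh] at h <;> simp at h)
    rw [union_comm, hun] at sol
    refine ⟨c, p, sol, ?_, ?_, ?_⟩
    · rw [(g1 t htP).2]
      exact hp1
    · unfold kap
      rw [(g1 t htP).1, (g1 t htP).2]
      exact hk1
    · intro v hv w hw hvw hne
      by_cases hvP : v ∈ P
      · exfalso
        have hsub : ({(t, o), (w', y)} : Finset (V × V)) ⊆ bd H P := by
          intro q hq
          simp only [mem_insert, mem_singleton] at hq
          rw [mem_bd]
          rcases hq with rfl | rfl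
          · exact ⟨htP, fun h => ho (hPB h), hto⟩
          · exact ⟨hw'P, hyP, hyw'.symm⟩
        have hc : ({(t, o), (w', y)} : Finset (V × V)).card = 2 := by
          rw [Finset.card_insert_of_notMem, Finset.card_singleton]
          simp only [mem_singleton, Prod.mk.injEq, not_and]
          rintro _ rfl
          exact ho (mem_sdiff.mp hyB).1
        have heq := Finset.eq_of_subset_of_card_le hsub (by rw [hP2, hc])
        have hm : (v, w) ∈ bd H P := by
          rw [mem_bd]
          exact ⟨hvP, fun h => hw (hPB h), hvw⟩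
        rw [← heq] at hm
        simp only [mem_insert, mem_singleton] at hm
        rcases hm with hm | hm
        · exact hne hm
        · rw [Prod.mk.injEq] at hm
          rw [hm.2] at hw
          exact hw (mem_sdiff.mp hyB).1
      · have hv2 : v ∈ B \ P := mem_sdiff.mpr ⟨hv, hvP⟩
        have : kap c p v w = kap c2' p2' v w := by
          unfold kap
          rw [(g2 v hv2).1, (g2 v hv2).2]
        rw [this]
        exact hk2 v w ⟨hvw, hvP, fun h => hw (hPB h)⟩
  · -- delete the edge `t o`
    push Not at hex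
    have htone : ∀ S ⊆ B, t ∈ S → 3 ≤ (bd H S).card := by
      intro S hS htS
      have h1 := cfg.two S hS ⟨t, htS⟩
      have h2 : (bd H S).card ≠ 2 := fun h => hex S hS h htS
      omega
    have cfg' : Cfg (dele H t o) B := by
      refine ⟨?_, ?_⟩
      · intro v hv
        have h1 := cfg.deg v hv
        by_cases hvt : v = t
        · subst hvt
          have h2 := card_bd_dele H (s := v) (t := o) (W := {v}) (by simp)
            (by simpa using hto.ne') hto
          omega
        · have h2 := card_bd_dele_eq H (s := t) (t := o) (W := {v}) (by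
            have hov : o ≠ v := fun h => ho (h ▸ hv)
            simp [Ne.symm hvt, hov])
          omega
      · intro S hS hSn
        by_cases htS : t ∈ S
        · have h2 := card_bd_dele H htS (fun h => ho (hS h)) hto
          have h3 := htone S hS htS
          omega
        · have h2 := card_bd_dele_eq H (s := t) (t := o) (W := S) (by
            have hoS : o ∉ S := fun h => ho (hS h)
            simp [htS, hoS])
          have h3 := cfg.two S hS hSn
          omega
    have hb := card_bd_dele H ht ho hto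
    have hd := card_bd_dele H (s := t) (t := o) (W := {t}) (by simp) (by simpa using hto.ne') hto
    have hd2 := cfg.deg t ht
    have hd3 := cfg'.two {t} (by simpa using ht) (by simp)
    have hdt : (bd (dele H t o) {t}).card = 2 := by omega
    obtain ⟨f1, hf1⟩ := exists_nbr (H := dele H t o) (y := t) (by omega)
    have hmu : mu (dele H t o) B < mu H B :=
      mu_lt (Finset.Subset.refl B) (fun v w h => h.1) ht hto
        (Or.inr (fun h => h.2.1 ⟨rfl, rfl⟩))
    obtain ⟨c0, p0, s0, hp0, hq0⟩ := ih _ _ hmu cfg' (by omega) t ht f1 hf1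
    refine ⟨kap c0 p0, fun b => ?_⟩
    obtain ⟨c', p', s', hct, hk, -⟩ := s0.flip ht hdt hf1 hp0 hq0 (!b)
    have hadj : ∀ v ∈ B, ∀ w, H.Adj v w → (v, w) ≠ (t, o) → (dele H t o).Adj v w := by
      intro v hv w hvw hne
      refine ⟨hvw, ?_, ?_⟩
      · rintro ⟨rfl, rfl⟩
        exact hne rfl
      · rintro ⟨rfl, rfl⟩
        exact ho hv
    have hpt : p' t ≠ o := by
      intro h
      have := s'.adj t ht
      rw [h, dele_adj] at this
      exact this.2.1 ⟨rfl, rfl⟩
    refine ⟨c', p', ⟨fun v hv => (s'.adj v hv).1, ?_⟩, hpt, ?_, ?_⟩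
    · intro v hv w hw hvw
      refine s'.edge v hv w hw (hadj v hv w hvw ?_)
      intro h
      rw [Prod.mk.injEq] at h
      rw [h.2] at hw
      exact ho hw
    · rw [kap_unp hpt, hct]
      simp
    · intro v hv w hw hvw hne
      exact hk v w (hadj v hv w hvw hne)

/-- The series step: `A` is cut by one edge into two parts, each with two boundary edges. -/
lemma series_step {H : SimpleGraph V} {A : Finset V} (cfg : Cfg H A)
    (ih : ∀ (H' : SimpleGraph V) (A' : Finset V), mu H' A' < mu H A → Star H' A')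
    {W : Finset V} (hW : W ⊆ A) (hW2 : (bd H W).card = 2) (hW3 : (bd H (A \ W)).card = 2)
    (he : (ee H W (A \ W)).card = 1) {s t : V} (hs : s ∈ W) (hst : H.Adj s t) :
    ∃ (c : V → Bool) (p : V → V), Sol H A c p ∧ p s ≠ t ∧ (t ∈ A → p t ≠ s) := by
  have hdis : Disjoint W (A \ W) := disjoint_sdiff
  have hun : W ∪ (A \ W) = A := union_sdiff_of_subset hW
  obtain ⟨⟨x, y⟩, hxy⟩ := Finset.card_eq_one.mp he
  have hxy0 : (x, y) ∈ ee H W (A \ W) := by rw [hxy]; simp
  have huniq : ∀ v ∈ W, ∀ w ∈ A \ W, H.Adj v w → v = x ∧ w = y := by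
    intro v hv w hw hvw
    have : (v, w) ∈ ee H W (A \ W) := by
      rw [mem_ee]
      exact ⟨hv, hw, hvw⟩
    rw [hxy, mem_singleton, Prod.mk.injEq] at this
    exact this
  rw [mem_ee] at hxy0
  obtain ⟨hx, hy, hadj⟩ := hxy0
  simp only at hx hy hadj
  have hmu1 : mu H W < mu H A :=
    mu_lt hW (fun v w h => h) (mem_sdiff.mp hy).1 hadj.symm (Or.inl (mem_sdiff.mp hy).2)
  have hmu2 : mu H (A \ W) < mu H A :=
    mu_lt sdiff_subset (fun v w h => h) (hW hx) hadj (Or.inl (fun h => (mem_sdiff.mp h).2 hx))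
  obtain ⟨c1, p1, s1, hp1, hq1⟩ := ih _ _ hmu1 (cfg.mono hW) hW2 s hs t hst
  obtain ⟨c2, p2, s2, hp2, -⟩ := ih _ _ hmu2 (cfg.mono sdiff_subset) hW3 y hy x hadj.symm
  obtain ⟨c2', s2', hk2⟩ := s2.adjust y x (!kap c1 p1 x y)
  obtain ⟨c, p, sol, g1, g2⟩ := glue (H := H) hdis s1 s2' (fun v _ w h => h)
    (fun v _ w h => h) (fun v _ w _ h => h) (fun v hv w hw h => h)
    (by
      intro v hv w hw hvw
      obtain ⟨rfl, rfl⟩ := huniq v hv w hw hvw
      refine ⟨?_, fun h => hp2 h.2⟩
      rw [hk2]
      cases kap c1 p1 v w <;> simp)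
  rw [hun] at sol
  refine ⟨c, p, sol, ?_, ?_⟩
  · rw [(g1 s hs).2]
    exact hp1
  · intro htA
    by_cases htW : t ∈ W
    · rw [(g1 t htW).2]
      exact hq1 htW
    · have ht2 : t ∈ A \ W := mem_sdiff.mpr ⟨htA, htW⟩
      obtain ⟨rfl, rfl⟩ := huniq s hs t ht2 hst
      rw [(g2 t ht2).2]
      exact hp2

theorem star_aux : ∀ (n : ℕ) (H : SimpleGraph V) (A : Finset V), mu H A = n → Star H A := by
  intro n
  induction n using Nat.strong_induction_on with
  | _ n IH =>
  intro H A hn cfg hA2 s hs t hst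
  have ih : ∀ (H' : SimpleGraph V) (A' : Finset V), mu H' A' < mu H A → Star H' A' := by
    intro H' A' h
    exact IH _ (hn ▸ h) H' A' rfl
  -- numerical facts on proper subsets with two boundary edges
  have num : ∀ W ⊆ A, W.Nonempty → W ≠ A → (bd H W).card = 2 →
      1 ≤ (ee H W (A \ W)).card ∧ (ee H W (A \ W)).card ≤ 2 ∧
      (bd H (A \ W)).card = 2 * (ee H W (A \ W)).card := by
    intro W hW hWn hWA hW2
    have hdis : Disjoint W (A \ W) := disjoint_sdiff
    have hun : W ∪ (A \ W) = A := union_sdiff_of_subset hW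
    have c1 := card_bd_union H hdis
    rw [hun] at c1
    have hne : (A \ W).Nonempty := by
      rw [Finset.nonempty_iff_ne_empty]
      intro h0
      rw [Finset.sdiff_eq_empty_iff_subset] at h0
      exact hWA (Finset.Subset.antisymm hW h0)
    have c2 := cfg.two (A \ W) sdiff_subset hne
    have c3 := card_ee_le_left H hdis
    omega
  by_cases hS : ∃ W ⊆ A, W.Nonempty ∧ W ≠ A ∧ (bd H W).card = 2 ∧ (ee H W (A \ W)).card = 1
  · obtain ⟨W, hW, hWn, hWA, hW2, he⟩ := hS
    have h3 := (num W hW hWn hWA hW2).2.2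
    by_cases hsW : s ∈ W
    · exact series_step cfg ih hW hW2 (by omega) he hsW hst
    · refine series_step (W := A \ W) cfg ih sdiff_subset (by omega) ?_ ?_
        (mem_sdiff.mpr ⟨hs, hsW⟩) hst
      · rw [Finset.sdiff_sdiff_eq_self hW]
        exact hW2
      · rw [Finset.sdiff_sdiff_eq_self hW, card_ee_comm]
        exact he
  have hS' : ∀ W ⊆ A, W.Nonempty → W ≠ A → (bd H W).card = 2 →
      (ee H W (A \ W)).card = 2 ∧ (bd H (A \ W)).card = 4 := by
    intro W hW hWn hWA hW2
    obtain ⟨h1, h2, h3⟩ := num W hW hWn hWA hW2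
    have h4 : (ee H W (A \ W)).card ≠ 1 := fun h => hS ⟨W, hW, hWn, hWA, hW2, h⟩
    omega
  by_cases htA : t ∈ A
  swap
  · -- root edge
    by_cases hAs : A = {s}
    · subst hAs
      have hm : (s, t) ∈ bd H {s} := by
        rw [mem_bd]
        exact ⟨hs, htA, hst⟩
      obtain ⟨q, hq, hqne⟩ := Finset.exists_mem_ne (by rw [hA2]; norm_num : 1 < (bd H {s}).card)
        (s, t)
      rw [mem_bd, mem_singleton] at hq
      have hq1 : H.Adj s q.2 := by
        rw [← hq.1]
        exact hq.2.2
      refine ⟨fun _ => true, fun _ => q.2, ⟨?_, ?_⟩, ?_, fun h => absurd h htA⟩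
      · intro v hv
        rw [mem_singleton] at hv
        rw [hv]
        exact hq1
      · intro v hv w hw hvw
        rw [mem_singleton] at hv hw
        rw [hv, hw] at hvw
        exact absurd hvw (H.loopless.irrefl s)
      · intro h
        exact hqne (Prod.ext hq.1 h)
    · have hsn : ({s} : Finset V) ≠ A := fun h => hAs h.symm
      have hss : ({s} : Finset V) ⊆ A := by simpa using hs
      have hdis : Disjoint ({s} : Finset V) (A \ {s}) := disjoint_sdiff
      have hun : {s} ∪ (A \ {s}) = A := union_sdiff_of_subset hss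
      have htd : t ∉ A \ {s} := fun h => htA (mem_sdiff.mp h).1
      have c1 : (ee H {s} (A \ {s})).card < (bd H {s}).card :=
        card_ee_lt H hdis (by simp) (by simpa using hst.ne') htd hst
      have c2 := card_bd_union H hdis
      rw [hun] at c2
      have c3 := cfg.deg s hs
      have c4 := cfg.two {s} hss (by simp)
      have hne : (A \ {s}).Nonempty := by
        rw [Finset.nonempty_iff_ne_empty]
        intro h0
        rw [Finset.sdiff_eq_empty_iff_subset] at h0
        exact hAs (Finset.Subset.antisymm h0 hss)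
      have c5 := cfg.two (A \ {s}) sdiff_subset hne
      have c6 : (bd H {s}).card ≠ 2 := by
        intro h
        have := (hS' {s} hss (by simp) hsn h).1
        omega
      have he : (ee H {s} (A \ {s})).card = 2 := by omega
      have hb3 : (bd H (A \ {s})).card = 3 := by omega
      obtain ⟨q1, q2, hgne, hgs⟩ := Finset.card_eq_two.mp he
      have hm1 : q1 ∈ ee H {s} (A \ {s}) := by rw [hgs]; simp
      have hm2 : q2 ∈ ee H {s} (A \ {s}) := by rw [hgs]; simp
      rw [mem_ee, mem_singleton] at hm1 hm2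
      obtain ⟨ha1, hg1, hs1⟩ := hm1
      obtain ⟨ha2, hg2, hs2⟩ := hm2
      rw [ha1] at hs1
      rw [ha2] at hs2
      obtain ⟨g1, hg1e⟩ : ∃ g, g = q1.2 := ⟨_, rfl⟩
      obtain ⟨g2, hg2e⟩ : ∃ g, g = q2.2 := ⟨_, rfl⟩
      rw [← hg1e] at hg1 hs1
      rw [← hg2e] at hg2 hs2
      have hg12 : g1 ≠ g2 := fun h => hgne (Prod.ext (ha1.trans ha2.symm) (by rw [← hg1e, ← hg2e, h]))
      have huniq : ∀ w ∈ A \ {s}, H.Adj s w → w = g1 ∨ w = g2 := by
        intro w hw haw
        have : (s, w) ∈ ee H {s} (A \ {s}) := by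
          rw [mem_ee]
          exact ⟨by simp, hw, haw⟩
        rw [hgs, mem_insert, mem_singleton] at this
        rcases this with h | h
        · exact Or.inl (by rw [hg1e, ← h])
        · exact Or.inr (by rw [hg2e, ← h])
      have hmu : mu H (A \ {s}) < mu H A :=
        mu_lt sdiff_subset (fun v w h => h) hs hst (Or.inl (by simp))
      have h3 := three_of (H := H) (B := A \ {s})
        (fun H' A' h => ih H' A' (h.trans hmu)) (cfg.mono sdiff_subset) hb3 g1 hg1 s (by simp)
        hs1.symm
      obtain ⟨K, hK⟩ := h3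
      obtain ⟨c1', p1', s1', hp1, hk1, hK1⟩ := hK (!K g2 s)
      have sol0 : Sol H {s} (fun _ => K g2 s) (fun _ => g1) := by
        refine ⟨?_, ?_⟩
        · intro v hv
          rw [mem_singleton] at hv
          rw [hv]
          exact hs1
        · intro v hv w hw hvw
          rw [mem_singleton] at hv hw
          rw [hv, hw] at hvw
          exact absurd hvw (H.loopless.irrefl s)
      obtain ⟨c, p, sol, e1, e2⟩ := glue (H := H) hdis sol0 s1' (fun v _ w h => h)
        (fun v _ w h => h) (fun v _ w _ h => h) (fun v hv w hw h => h)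
        (by
          intro v hv w hw hvw
          rw [mem_singleton] at hv
          subst hv
          rcases huniq w hw hvw with rfl | rfl
          · refine ⟨?_, fun h => hp1 h.2⟩
            rw [hk1, kap_pick rfl]
            cases K g2 v <;> simp
          · refine ⟨?_, fun h => hg12 h.1⟩
            rw [kap_unp hg12, hK1 w hg2 v (by simp) hvw.symm (by
              intro h
              rw [Prod.mk.injEq] at h
              exact hg12 h.1.symm)]
            cases K w v <;> simp)
      rw [hun] at sol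
      refine ⟨c, p, sol, ?_, fun h => absurd h htA⟩
      rw [(e1 s (by simp)).2]
      intro h
      exact htd (h ▸ hg1)
  -- inner edge
  by_cases hT : ∃ W ⊆ A, W ≠ A ∧ (bd H W).card = 2 ∧ (s ∈ W ∨ t ∈ W)
  · -- a maximal piece
    classical
    set fam := A.powerset.filter (fun P => P ≠ A ∧ (bd H P).card = 2 ∧ (s ∈ P ∨ t ∈ P)) with hfam
    have hfn : fam.Nonempty := by
      obtain ⟨P, hP, hP2⟩ := hT
      exact ⟨P, by rw [hfam, mem_filter, mem_powerset]; exact ⟨hP, hP2⟩⟩
    obtain ⟨P, hPf, hPm⟩ := Finset.exists_max_image fam Finset.card hfn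
    rw [hfam, mem_filter, mem_powerset] at hPf
    obtain ⟨hPA, hPne, hP2, hstP⟩ := hPf
    have hPn : P.Nonempty := by
      rcases hstP with h | h
      · exact ⟨s, h⟩
      · exact ⟨t, h⟩
    obtain ⟨he, hb4⟩ := hS' P hPA hPn hPne hP2
    have hdis : Disjoint P (A \ P) := disjoint_sdiff
    have hun : P ∪ (A \ P) = A := union_sdiff_of_subset hPA
    have cfg' : Cfg (del H P) (A \ P) := by
      refine cfg_del cfg hPA hPn hP2 ?_
      intro W hW hWn hW1 hW2
      have hd : Disjoint W P := by
        rw [Finset.disjoint_left]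
        intro v hv
        exact (mem_sdiff.mp (hW hv)).2
      have d1 := card_bd_union H hd
      have d2 : (bd H (W ∪ P)).card = 2 := by omega
      have d5 : W ∪ P ≠ A := by
        intro h
        have : W = A \ P := by
          rw [← h, union_sdiff_cancel_right hd]
        rw [this] at hW2
        omega
      have d3 : W ∪ P ∈ fam := by
        rw [hfam, mem_filter, mem_powerset]
        refine ⟨union_subset (hW.trans sdiff_subset) hPA, d5, d2, ?_⟩
        rcases hstP with h | h
        · exact Or.inl (mem_union_right _ h)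
        · exact Or.inr (mem_union_right _ h)
      have d4 := hPm _ d3
      rw [Finset.card_union_of_disjoint hd] at d4
      have := hWn.card_pos
      omega
    have e1 := card_bd_del H hdis.symm
    have c4 := card_ee_comm H (A \ P) P
    have hb2 : (bd (del H P) (A \ P)).card = 2 := by omega
    obtain ⟨⟨w, x⟩, ⟨w', y⟩, hne, hps⟩ := Finset.card_eq_two.mp he
    have hm1 : (w, x) ∈ ee H P (A \ P) := by rw [hps]; simp
    have hm2 : (w', y) ∈ ee H P (A \ P) := by rw [hps]; simp
    rw [mem_ee] at hm1 hm2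
    obtain ⟨hwP, hxA, hwx⟩ := hm1
    obtain ⟨hw'P, hyA, hwy⟩ := hm2
    simp only at hwP hxA hwx hw'P hyA hwy
    have hxP : x ∉ P := (mem_sdiff.mp hxA).2
    have hyP : y ∉ P := (mem_sdiff.mp hyA).2
    have huniq : ∀ v ∈ P, ∀ z ∈ A \ P, H.Adj v z → (v = w ∧ z = x) ∨ (v = w' ∧ z = y) := by
      intro v hv z hz hvz
      have : (v, z) ∈ ee H P (A \ P) := by
        rw [mem_ee]
        exact ⟨hv, hz, hvz⟩
      rw [hps] at this
      simpa using this
    have e2 := card_bd_del H (P := P) (W := {x}) (by simpa using hxP)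
    have e4 := cfg.deg x (mem_sdiff.mp hxA).1
    have e5 := cfg'.two {x} (by simpa using hxA) (by simp)
    have hxy : x ≠ y := by
      intro h
      subst h
      have hww : w ≠ w' := fun h => hne (by rw [h])
      have hsub : ({(x, w), (x, w')} : Finset (V × V)) ⊆ ee H {x} P := by
        intro q hq
        simp only [mem_insert, mem_singleton] at hq
        rw [mem_ee]
        rcases hq with rfl | rfl
        · exact ⟨by simp, hwP, hwx.symm⟩
        · exact ⟨by simp, hw'P, hwy.symm⟩
      have hc : ({(x, w), (x, w')} : Finset (V × V)).card = 2 := by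
        rw [Finset.card_insert_of_notMem, Finset.card_singleton]
        simp [hww]
      have := Finset.card_le_card hsub
      omega
    have e3 : 0 < (ee H {x} P).card :=
      Finset.card_pos.mpr ⟨(x, w), by rw [mem_ee]; exact ⟨by simp, hwP, hwx.symm⟩⟩
    have hdx : (bd (del H P) {x}).card = 2 := by omega
    obtain ⟨f1, hf1⟩ := exists_nbr (H := del H P) (y := x) (by omega)
    have hmu2 : mu (del H P) (A \ P) < mu H A :=
      mu_lt sdiff_subset (fun v w h => h.1) (hPA hwP) hwx
        (Or.inl (fun h => (mem_sdiff.mp h).2 hwP))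
    have hmu1 : mu H P < mu H A :=
      mu_lt hPA (fun v w h => h) (mem_sdiff.mp hxA).1 hwx.symm (Or.inl hxP)
    obtain ⟨c2, p2, s2, hp2, hq2⟩ := ih _ _ hmu2 cfg' hb2 x hxA f1 hf1
    have hsol1 : ∃ (c : V → Bool) (p : V → V), Sol H P c p ∧ (s ∈ P → p s ≠ t) ∧
        (t ∈ P → p t ≠ s) := by
      by_cases hsP : s ∈ P
      · obtain ⟨c1, p1, s1, h1, h2⟩ := ih _ _ hmu1 (cfg.mono hPA) hP2 s hsP t hst
        exact ⟨c1, p1, s1, fun _ => h1, h2⟩
      · have htP : t ∈ P := by
          rcases hstP with h | h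
          · exact absurd h hsP
          · exact h
        obtain ⟨c1, p1, s1, h1, h2⟩ := ih _ _ hmu1 (cfg.mono hPA) hP2 t htP s hst.symm
        exact ⟨c1, p1, s1, h2, fun _ => h1⟩
    obtain ⟨c1, p1, s1, hu1, hu2⟩ := hsol1
    obtain ⟨c1', s1', hk1⟩ := s1.adjust w' y (c2 y)
    obtain ⟨c2', p2', s2', hc2x, -, hother⟩ := s2.flip hxA hdx hf1 hp2 hq2 (kap c1' p1 w x)
    have hadj2 : ∀ v ∈ A \ P, p2' v ∉ P := by
      intro v hv h
      exact (s2'.adj v hv).2.2 h
    obtain ⟨c, p, sol, g1, g2⟩ := glue (H := H) hdis s1' s2' (fun v _ w h => h)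
      (fun v _ w h => h.1) (fun v _ w _ h => h)
      (fun v hv w hw h => ⟨h, (mem_sdiff.mp hv).2, (mem_sdiff.mp hw).2⟩)
      (by
        intro v hv z hz hvz
        have hpz : p2' z ≠ v := fun h => hadj2 z hz (h ▸ hv)
        refine ⟨?_, fun h => hpz h.2⟩
        rw [kap_unp hpz]
        rcases huniq v hv z hz hvz with ⟨rfl, rfl⟩ | ⟨rfl, rfl⟩
        · rw [hc2x]
          cases kap c1' p1 v z <;> simp
        · rw [hk1, (hother z hxy.symm).1]
          cases c2 z <;> simp)
    rw [hun] at sol
    refine ⟨c, p, sol, ?_, ?_⟩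
    · by_cases hsP : s ∈ P
      · rw [(g1 s hsP).2]
        exact hu1 hsP
      · have hsA : s ∈ A \ P := mem_sdiff.mpr ⟨hs, hsP⟩
        rw [(g2 s hsA).2]
        intro h
        have htP : t ∈ P := by
          rcases hstP with h | h
          · exact absurd h hsP
          · exact h
        exact hadj2 s hsA (h ▸ htP)
    · intro _
      by_cases htP : t ∈ P
      · rw [(g1 t htP).2]
        exact hu2 htP
      · have htA' : t ∈ A \ P := mem_sdiff.mpr ⟨htA, htP⟩
        rw [(g2 t htA').2]
        intro h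
        have hsP : s ∈ P := by
          rcases hstP with h | h
          · exact h
          · exact absurd h htP
        exact hadj2 t htA' (h ▸ hsP)
  · -- delete the edge
    push Not at hT
    have hthree : ∀ S ⊆ A, S ≠ A → (s ∈ S ∨ t ∈ S) → 3 ≤ (bd H S).card := by
      intro S hS hSA hor
      have hn : S.Nonempty := by
        rcases hor with h | h
        · exact ⟨s, h⟩
        · exact ⟨t, h⟩
      have h1 := cfg.two S hS hn
      have h2 : (bd H S).card ≠ 2 := by
        intro h
        have := hT S hS hSA h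
        rcases hor with h' | h'
        · exact this.1 h'
        · exact this.2 h'
      omega
    have hswap : dele H s t = dele H t s := by
      ext v w
      rw [dele_adj, dele_adj]
      tauto
    have cfg' : Cfg (dele H s t) A := by
      refine ⟨?_, ?_⟩
      · intro v hv
        have h1 := cfg.deg v hv
        by_cases hvs : v = s
        · subst hvs
          have h2 := card_bd_dele H (s := v) (t := t) (W := {v}) (by simp)
            (by simpa using hst.ne') hst
          omega
        · by_cases hvt : v = t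
          · subst hvt
            have h2 := card_bd_dele H (s := v) (t := s) (W := {v}) (by simp)
              (by simpa using hst.ne) hst.symm
            rw [hswap]
            omega
          · have h2 := card_bd_dele_eq H (s := s) (t := t) (W := {v}) (by
              simp [Ne.symm hvs, Ne.symm hvt])
            omega
      · intro S hS hSn
        have h0 := cfg.two S hS hSn
        by_cases hsS : s ∈ S
        · by_cases htS : t ∈ S
          · have h2 := card_bd_dele_eq H (s := s) (t := t) (W := S) (by simp [hsS, htS])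
            omega
          · have h2 := card_bd_dele H hsS htS hst
            have h3 := hthree S hS (fun h => htS (h ▸ htA)) (Or.inl hsS)
            omega
        · by_cases htS : t ∈ S
          · have h2 := card_bd_dele H htS hsS hst.symm
            have h3 := hthree S hS (fun h => hsS (h ▸ hs)) (Or.inr htS)
            rw [hswap]
            omega
          · have h2 := card_bd_dele_eq H (s := s) (t := t) (W := S) (by simp [hsS, htS])
            omega
    have hb := card_bd_dele_eq H (s := s) (t := t) (W := A) (by simp [hs, htA])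
    have hd := card_bd_dele H (s := s) (t := t) (W := {s}) (by simp) (by simpa using hst.ne') hst
    have hd2 := cfg.deg s hs
    have hd3 := cfg'.two {s} (by simpa using hs) (by simp)
    have hds : (bd (dele H s t) {s}).card = 2 := by omega
    obtain ⟨f1, hf1⟩ := exists_nbr (H := dele H s t) (y := s) (by omega)
    have hmu : mu (dele H s t) A < mu H A :=
      mu_lt (Finset.Subset.refl A) (fun v w h => h.1) hs hst
        (Or.inr (fun h => h.2.1 ⟨rfl, rfl⟩))
    obtain ⟨c0, p0, s0, hp0, hq0⟩ := ih _ _ hmu cfg' (by omega) s hs f1 hf1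
    obtain ⟨c', p', s', hcs, -, hother⟩ := s0.flip hs hds hf1 hp0 hq0 (!c0 t)
    have hps : p' s ≠ t := by
      intro h
      have := s'.adj s hs
      rw [h, dele_adj] at this
      exact this.2.1 ⟨rfl, rfl⟩
    have hpt : p' t ≠ s := by
      intro h
      have := s'.adj t htA
      rw [h, dele_adj] at this
      exact this.2.2 ⟨rfl, rfl⟩
    have hct : c' t = c0 t := (hother t hst.ne').1
    refine ⟨c', p', ⟨fun v hv => (s'.adj v hv).1, ?_⟩, hps, fun _ => hpt⟩
    intro v hv w hw hvw
    by_cases h1 : v = s ∧ w = t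
    · obtain ⟨rfl, rfl⟩ := h1
      refine ⟨?_, fun h => hps h.1⟩
      rw [kap_unp hps, kap_unp hpt, hcs, hct]
      cases c0 w <;> simp
    · by_cases h2 : v = t ∧ w = s
      · obtain ⟨rfl, rfl⟩ := h2
        refine ⟨?_, fun h => hps h.2⟩
        rw [kap_unp hps, kap_unp hpt, hcs, hct]
        cases c0 v <;> simp
      · exact s'.edge v hv w hw ⟨hvw, h1, h2⟩

/-- STAR. -/
theorem star (H : SimpleGraph V) (A : Finset V) : Star H A := star_aux _ H A rfl

/-- THREE. -/
theorem three (H : SimpleGraph V) (B : Finset V) : Three H B :=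
  three_of (fun H' A' _ => star H' A')

end Pool.Agent.H4.BI
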